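import Mathlib
import Pool.Agent.Helper70.MM.Goals4

set_option autoImplicit false

open MeasureTheory Set Metric
open Pool.Agent.Results.MP_91ee6f_gt

namespace Pool.Agent.Helper40.MM

theorem cnum (h : Pool.Agent.Helper70.MM.CFORM) : Pool.Agent.Helper70.MM.CNUM := by
  unfold Pool.Agent.Helper70.MM.CNUM
  rw [h (17 / 10) (by norm_num)]
  have hpi := Real.pi_pos
  have hpi4 : Real.pi < 3.1416 := Real.pi_lt_d4
  have hpi2 : 3.14 < Real.pi := Real.pi_gt_d2
  have h1 : ∫ t in (0 : ℝ)..(Real.pi / 2), Real.exp ((-(17 / 5)) * t) ≤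
      ∫ t in (0 : ℝ)..(Real.pi / 2), Real.exp (-(2 * (17 / 10) * Real.sin t)) := by
    apply intervalIntegral.integral_mono_on (by positivity)
    · exact (by fun_prop : Continuous fun t : ℝ => Real.exp ((-(17 / 5)) * t)).intervalIntegrable _ _
    · exact (by fun_prop : Continuous fun t : ℝ =>
        Real.exp (-(2 * (17 / 10) * Real.sin t))).intervalIntegrable _ _
    · intro t ht
      apply Real.exp_le_exp.2
      have := Real.sin_le ht.1
      linarith
  have h2 : ∫ t in (0 : ℝ)..(Real.pi / 2), Real.exp ((-(17 / 5)) * t) =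
      (5 / 17) * (1 - Real.exp (-(17 / 10 * Real.pi))) := by
    rw [intervalIntegral.integral_comp_mul_left (fun x => Real.exp x) (by norm_num), integral_exp,
      smul_eq_mul, mul_zero, Real.exp_zero,
      show (-(17 / 5) : ℝ) * (Real.pi / 2) = -(17 / 10 * Real.pi) by ring]
    ring
  have he : (2.7182818283 : ℝ) < Real.exp 1 := Real.exp_one_gt_d9
  -- the small exponential
  have h3 : Real.exp (-(17 / 10 * Real.pi)) < 7 / 1000 := by
    have h4 : Real.exp (-(17 / 10 * Real.pi)) ≤ Real.exp (-5) := by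
      apply Real.exp_le_exp.2
      linarith
    have h5 : Real.exp (-5) = (Real.exp 1 ^ 5)⁻¹ := by
      rw [Real.exp_neg, ← Real.exp_nat_mul]
      norm_num
    have h6 : (2.71 : ℝ) ^ 5 < Real.exp 1 ^ 5 := by
      apply pow_lt_pow_left₀ _ (by norm_num) (by norm_num)
      linarith
    have h7 : (Real.exp 1 ^ 5)⁻¹ < ((2.71 : ℝ) ^ 5)⁻¹ := by
      apply inv_strictAnti₀ (by positivity) h6
    have h8 : ((2.71 : ℝ) ^ 5)⁻¹ < 7 / 1000 := by norm_num
    linarith
  have h9 : (5.38 : ℝ) < Real.exp (17 / 10) := by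
    by_contra hcon
    push Not at hcon
    have h10 : Real.exp (17 / 10) ^ 10 = Real.exp 1 ^ 17 := by
      rw [← Real.exp_nat_mul, ← Real.exp_nat_mul]
      norm_num
    have h11 : Real.exp (17 / 10) ^ 10 ≤ (5.38 : ℝ) ^ 10 :=
      pow_le_pow_left₀ (Real.exp_pos _).le hcon 10
    have h12 : (2.7182 : ℝ) ^ 17 < Real.exp 1 ^ 17 := by
      apply pow_lt_pow_left₀ _ (by norm_num) (by norm_num)
      linarith
    have h13 : (5.38 : ℝ) ^ 10 < (2.7182 : ℝ) ^ 17 := by norm_num
    linarith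
  have h14 : Real.exp (-(17 / 10)) < 1 / 5.38 := by
    rw [Real.exp_neg, ← one_div]
    apply one_div_lt_one_div_of_lt (by norm_num) h9
  have h15 : (2 / Real.pi) * ((5 / 17) * (1 - 7 / 1000)) ≤
      (2 / Real.pi) * ∫ t in (0 : ℝ)..(Real.pi / 2), Real.exp (-(2 * (17 / 10) * Real.sin t)) := by
    apply mul_le_mul_of_nonneg_left _ (by positivity)
    rw [h2] at h1
    linarith
  refine lt_of_lt_of_le (lt_trans h14 ?_) h15
  rw [show (2 / Real.pi) * ((5 / 17) * (1 - 7 / 1000)) = (993 / 1700) / Real.pi by ring]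
  rw [div_lt_div_iff₀ (by norm_num) hpi]
  linarith

end Pool.Agent.Helper40.MM
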